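import Mathlib

set_option autoImplicit false

namespace Pool.Agent.H3.MLP

open Finset

lemma card_filter_le_div (N d : ℕ) (P : ℕ → Prop) [DecidablePred P] (h : ∀ n, P n → d ∣ n) :
    (((Icc 1 N).filter P).card : ℝ) ≤ N * (1 / (d : ℝ)) := by
  have h1 : ((Icc 1 N).filter P).card ≤ ((Icc 1 N).filter (d ∣ ·)).card := by
    apply Finset.card_le_card
    intro n hn
    simp only [Finset.mem_filter] at hn ⊢
    exact ⟨hn.1, h n hn.2⟩
  have h2 : (((Icc 1 N).filter (d ∣ ·)).card : ℝ) ≤ (N : ℝ) / d := by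
    have h : (Icc 1 N) = Ioc 0 N := by ext; simp; omega
    rw [h, Nat.Ioc_filter_dvd_card_eq_div]
    exact Nat.cast_div_le
  have h3 : (((Icc 1 N).filter P).card : ℝ) ≤ (((Icc 1 N).filter (d ∣ ·)).card : ℝ) := by exact_mod_cast h1
  rw [mul_one_div]
  exact h3.trans h2

lemma dvd3 {a b c n : ℕ} (ha : a.Prime) (hb : b.Prime) (hc : c.Prime) (hab : a ≠ b) (hac : a ≠ c) (hbc : b ≠ c)
    (h1 : a ∣ n) (h2 : b ∣ n) (h3 : c ∣ n) : a * b * c ∣ n := by
  have hab' := (Nat.coprime_primes ha hb).2 hab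
  have hac' := (Nat.coprime_primes ha hc).2 hac
  have hbc' := (Nat.coprime_primes hb hc).2 hbc
  exact Nat.Coprime.mul_dvd_of_dvd_of_dvd (Nat.Coprime.mul_left hac' hbc')
    (Nat.Coprime.mul_dvd_of_dvd_of_dvd hab' h1 h2) h3

lemma dvd4 {a b c d n : ℕ} (ha : a.Prime) (hb : b.Prime) (hc : c.Prime) (hd : d.Prime) (hab : a ≠ b) (hac : a ≠ c)
    (hbc : b ≠ c) (had : a ≠ d) (hbd : b ≠ d) (hcd : c ≠ d)
    (h1 : a ∣ n) (h2 : b ∣ n) (h3 : c ∣ n) (h4 : d ∣ n) : a * b * c * d ∣ n := by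
  have had' := (Nat.coprime_primes ha hd).2 had
  have hbd' := (Nat.coprime_primes hb hd).2 hbd
  have hcd' := (Nat.coprime_primes hc hd).2 hcd
  exact Nat.Coprime.mul_dvd_of_dvd_of_dvd (Nat.Coprime.mul_left (Nat.Coprime.mul_left had' hbd') hcd')
    (dvd3 ha hb hc hab hac hbc h1 h2 h3) h4

lemma cnt_pair (N : ℕ) (x y : ℕ × ℕ) (hx : x.1.Prime ∧ x.2.Prime ∧ x.1 < x.2) (hy : y.1.Prime ∧ y.2.Prime ∧ y.1 < y.2) :
    (((Icc 1 N).filter (fun n => x.1 * x.2 ∣ n ∧ y.1 * y.2 ∣ n)).card : ℝ) ≤ N * (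
      ((1 / (x.1 : ℝ)) * (1 / (x.2 : ℝ))) * ((1 / (y.1 : ℝ)) * (1 / (y.2 : ℝ)))
      + (if x.1 = y.1 then ((1 / (x.1 : ℝ)) * (1 / (x.2 : ℝ))) * (1 / (y.2 : ℝ)) else 0)
      + (if x.1 = y.2 then ((1 / (x.1 : ℝ)) * (1 / (x.2 : ℝ))) * (1 / (y.1 : ℝ)) else 0)
      + (if x.2 = y.1 then ((1 / (x.1 : ℝ)) * (1 / (x.2 : ℝ))) * (1 / (y.2 : ℝ)) else 0)
      + (if x.2 = y.2 then ((1 / (x.1 : ℝ)) * (1 / (x.2 : ℝ))) * (1 / (y.1 : ℝ)) else 0)
      + (if x = y then ((1 / (x.1 : ℝ)) * (1 / (x.2 : ℝ))) else 0)) := by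
  obtain ⟨a, b⟩ := x
  obtain ⟨c, d⟩ := y
  obtain ⟨ha, hb, hab⟩ := hx
  obtain ⟨hc, hd, hcd⟩ := hy
  simp only at ha hb hab hc hd hcd ⊢
  have hN : (0 : ℝ) ≤ N := Nat.cast_nonneg N
  have hpos : ∀ (P : Prop) [Decidable P] (r : ℝ), 0 ≤ r → 0 ≤ (if P then r else 0) := by
    intro P _ r hr; split_ifs <;> [exact hr; exact le_rfl]
  have p0 : (0:ℝ) ≤ ((1 / (a : ℝ)) * (1 / (b : ℝ))) * ((1 / (c : ℝ)) * (1 / (d : ℝ))) := by positivity
  have p1 := hpos (a = c) (((1 / (a : ℝ)) * (1 / (b : ℝ))) * (1 / (d : ℝ))) (by positivity)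
  have p2 := hpos (a = d) (((1 / (a : ℝ)) * (1 / (b : ℝ))) * (1 / (c : ℝ))) (by positivity)
  have p3 := hpos (b = c) (((1 / (a : ℝ)) * (1 / (b : ℝ))) * (1 / (d : ℝ))) (by positivity)
  have p4 := hpos (b = d) (((1 / (a : ℝ)) * (1 / (b : ℝ))) * (1 / (c : ℝ))) (by positivity)
  have p5 := hpos ((a, b) = (c, d)) (((1 / (a : ℝ)) * (1 / (b : ℝ)))) (by positivity)
  have dl : ∀ {u v n : ℕ}, u * v ∣ n → u ∣ n := fun h => dvd_of_mul_right_dvd h
  have dr : ∀ {u v n : ℕ}, u * v ∣ n → v ∣ n := fun h => dvd_of_mul_left_dvd h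
  by_cases h1 : a = c
  · subst h1
    by_cases h2 : b = d
    · subst h2
      refine (card_filter_le_div N (a * b) _ (fun n hn => hn.1)).trans ?_
      apply mul_le_mul_of_nonneg_left _ hN
      rw [if_pos rfl] at p5
      simp only [if_true]
      push_cast
      have : 1 / ((a : ℝ) * b) = (1 / (a : ℝ)) * (1 / (b : ℝ)) := by rw [one_div_mul_one_div]
      rw [this]
      simp only [if_true] at p1 p4
      linarith
    · refine (card_filter_le_div N (a * b * d) _ (fun n hn => dvd3 ha hb hd (by omega) (by omega) (by omega) (dl hn.1) (dr hn.1) (dr hn.2))).trans ?_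
      apply mul_le_mul_of_nonneg_left _ hN
      push_cast
      have : 1 / ((a : ℝ) * b * d) = (1 / (a : ℝ)) * (1 / (b : ℝ)) * (1 / (d : ℝ)) := by
        rw [one_div_mul_one_div, one_div_mul_one_div]
      rw [this]
      simp only [if_true]
      linarith
  · by_cases h2 : a = d
    · subst h2
      refine (card_filter_le_div N (a * b * c) _ (fun n hn => dvd3 ha hb hc (by omega) (by omega) (by omega) (dl hn.1) (dr hn.1) (dl hn.2))).trans ?_
      apply mul_le_mul_of_nonneg_left _ hN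
      push_cast
      have : 1 / ((a : ℝ) * b * c) = (1 / (a : ℝ)) * (1 / (b : ℝ)) * (1 / (c : ℝ)) := by
        rw [one_div_mul_one_div, one_div_mul_one_div]
      rw [this]
      simp only [if_true]
      linarith
    · by_cases h3 : b = c
      · subst h3
        refine (card_filter_le_div N (a * b * d) _ (fun n hn => dvd3 ha hb hd (by omega) (by omega) (by omega) (dl hn.1) (dr hn.1) (dr hn.2))).trans ?_
        apply mul_le_mul_of_nonneg_left _ hN
        push_cast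
        have : 1 / ((a : ℝ) * b * d) = (1 / (a : ℝ)) * (1 / (b : ℝ)) * (1 / (d : ℝ)) := by
          rw [one_div_mul_one_div, one_div_mul_one_div]
        rw [this]
        simp only [if_true]
        linarith
      · by_cases h4 : b = d
        · subst h4
          refine (card_filter_le_div N (a * b * c) _ (fun n hn => dvd3 ha hb hc (by omega) (by omega) (by omega) (dl hn.1) (dr hn.1) (dl hn.2))).trans ?_
          apply mul_le_mul_of_nonneg_left _ hN
          push_cast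
          have : 1 / ((a : ℝ) * b * c) = (1 / (a : ℝ)) * (1 / (b : ℝ)) * (1 / (c : ℝ)) := by
            rw [one_div_mul_one_div, one_div_mul_one_div]
          rw [this]
          simp only [if_true]
          linarith
        · refine (card_filter_le_div N (a * b * c * d) _ (fun n hn => dvd4 ha hb hc hd (by omega) (by omega) (by omega) (by omega) (by omega) (by omega) (dl hn.1) (dr hn.1) (dl hn.2) (dr hn.2))).trans ?_
          apply mul_le_mul_of_nonneg_left _ hN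
          push_cast
          have : 1 / ((a : ℝ) * b * c * d) = (1 / (a : ℝ)) * (1 / (b : ℝ)) * ((1 / (c : ℝ)) * (1 / (d : ℝ))) := by
            rw [one_div_mul_one_div, one_div_mul_one_div, one_div_mul_one_div]; congr 1; ring
          rw [this]
          linarith

lemma pair_moment (N : ℕ) (K : Finset (ℕ × ℕ)) (hK : ∀ x ∈ K, x.1.Prime ∧ x.2.Prime ∧ x.1 < x.2)
    (w : ℕ × ℕ → ℝ) (C₂ C₃ : ℝ) (hC2 : 0 ≤ C₂) (hw0 : ∀ x ∈ K, 0 ≤ w x) (hw : ∀ x ∈ K, w x ≤ C₂)
    (H1 : ∀ q : ℕ, ∑ y ∈ K, (if q = y.1 then (1 / (y.2 : ℝ)) else 0) ≤ C₃)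
    (H2 : ∀ q : ℕ, ∑ y ∈ K, (if q = y.2 then (1 / (y.1 : ℝ)) else 0) ≤ C₃) :
    ∑ n ∈ Icc 1 N, (∑ x ∈ K, if x.1 * x.2 ∣ n then w x else 0) ^ 2 ≤
      N * ((∑ x ∈ K, w x * ((1 / (x.1:ℝ)) * (1 / (x.2:ℝ)))) ^ 2 +
        (4 * (C₂ * C₃) + C₂) * ∑ x ∈ K, w x * ((1 / (x.1:ℝ)) * (1 / (x.2:ℝ)))) := by
  have h1 : ∑ n ∈ Icc 1 N, (∑ x ∈ K, if x.1 * x.2 ∣ n then w x else 0) ^ 2 =
      ∑ x ∈ K, ∑ y ∈ K, w x * w y * (((Icc 1 N).filter (fun n => x.1 * x.2 ∣ n ∧ y.1 * y.2 ∣ n)).card : ℝ) := by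
    simp only [sq, Finset.sum_mul_sum]
    rw [Finset.sum_comm]
    refine Finset.sum_congr rfl fun x _ => ?_
    rw [Finset.sum_comm]
    refine Finset.sum_congr rfl fun y _ => ?_
    rw [Finset.card_filter]
    push_cast
    rw [Finset.mul_sum]
    refine Finset.sum_congr rfl fun n _ => ?_
    by_cases hp : x.1 * x.2 ∣ n <;> by_cases hq : y.1 * y.2 ∣ n <;> simp [hp, hq]
  rw [h1]
  have hN : (0 : ℝ) ≤ N := Nat.cast_nonneg N
  set I : ℕ × ℕ → ℝ := fun x => (1 / (x.1:ℝ)) * (1 / (x.2:ℝ)) with hI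
  have hI0 : ∀ x, 0 ≤ I x := fun x => by simp only [hI]; positivity
  have h2 : ∀ x ∈ K, ∑ y ∈ K, w x * w y * (((Icc 1 N).filter (fun n => x.1 * x.2 ∣ n ∧ y.1 * y.2 ∣ n)).card : ℝ) ≤
      N * ((w x * I x) * (∑ y ∈ K, w y * I y) + (w x * I x) * (4 * (C₂ * C₃) + C₂)) := by
    intro x hx
    have h3 : ∀ y ∈ K, w x * w y * (((Icc 1 N).filter (fun n => x.1 * x.2 ∣ n ∧ y.1 * y.2 ∣ n)).card : ℝ) ≤
        N * ((w x * I x) * (w y * I y) + (w x * I x) * (C₂ * (if x.1 = y.1 then 1 / (y.2 : ℝ) else 0)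
          + C₂ * (if x.1 = y.2 then 1 / (y.1 : ℝ) else 0) + C₂ * (if x.2 = y.1 then 1 / (y.2 : ℝ) else 0)
          + C₂ * (if x.2 = y.2 then 1 / (y.1 : ℝ) else 0) + C₂ * (if x = y then 1 else 0))) := by
      intro y hy
      have h4 := cnt_pair N x y (hK x hx) (hK y hy)
      have hwx := hw0 x hx
      have hwy := hw0 y hy
      have h5 : w x * w y * (((Icc 1 N).filter (fun n => x.1 * x.2 ∣ n ∧ y.1 * y.2 ∣ n)).card : ℝ) ≤ 
          w x * w y * (N * (I x * I y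
            + (if x.1 = y.1 then I x * (1 / (y.2 : ℝ)) else 0)
            + (if x.1 = y.2 then I x * (1 / (y.1 : ℝ)) else 0)
            + (if x.2 = y.1 then I x * (1 / (y.2 : ℝ)) else 0)
            + (if x.2 = y.2 then I x * (1 / (y.1 : ℝ)) else 0)
            + (if x = y then I x else 0))) := mul_le_mul_of_nonneg_left h4 (mul_nonneg hwx hwy)
      refine h5.trans ?_
      have key : ∀ (P : Prop) [Decidable P] (r : ℝ), 0 ≤ r → 
          w x * w y * (if P then I x * r else 0) ≤ (w x * I x) * (C₂ * (if P then r else 0)) := by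
        intro P _ r hr
        split_ifs
        · have : w y ≤ C₂ := hw y hy
          have h6 : w y * (w x * I x * r) ≤ C₂ * (w x * I x * r) := 
            mul_le_mul_of_nonneg_right this (mul_nonneg (mul_nonneg hwx (hI0 x)) hr)
          nlinarith
        · simp
      have k1 := key (x.1 = y.1) (1 / (y.2 : ℝ)) (by positivity)
      have k2 := key (x.1 = y.2) (1 / (y.1 : ℝ)) (by positivity)
      have k3 := key (x.2 = y.1) (1 / (y.2 : ℝ)) (by positivity)
      have k4 := key (x.2 = y.2) (1 / (y.1 : ℝ)) (by positivity)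
      have k5 := key (x = y) 1 (by positivity)
      rw [mul_one] at k5
      rw [mul_left_comm]
      apply mul_le_mul_of_nonneg_left _ hN
      have e1 : w x * w y * (I x * I y) = (w x * I x) * (w y * I y) := by ring
      linarith
    refine (Finset.sum_le_sum h3).trans ?_
    rw [← Finset.mul_sum]
    apply mul_le_mul_of_nonneg_left _ hN
    rw [Finset.sum_add_distrib, ← Finset.mul_sum, ← Finset.mul_sum]
    have hwI : 0 ≤ w x * I x := mul_nonneg (hw0 x hx) (hI0 x)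
    have h7 : ∑ y ∈ K, (C₂ * (if x.1 = y.1 then 1 / (y.2 : ℝ) else 0)
          + C₂ * (if x.1 = y.2 then 1 / (y.1 : ℝ) else 0) + C₂ * (if x.2 = y.1 then 1 / (y.2 : ℝ) else 0)
          + C₂ * (if x.2 = y.2 then 1 / (y.1 : ℝ) else 0) + C₂ * (if x = y then 1 else 0)) ≤ 4 * (C₂ * C₃) + C₂ := by
      simp only [Finset.sum_add_distrib, ← Finset.mul_sum]
      have a1 := mul_le_mul_of_nonneg_left (H1 x.1) hC2
      have a2 := mul_le_mul_of_nonneg_left (H2 x.1) hC2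
      have a3 := mul_le_mul_of_nonneg_left (H1 x.2) hC2
      have a4 := mul_le_mul_of_nonneg_left (H2 x.2) hC2
      have a5 : C₂ * ∑ y ∈ K, (if x = y then (1 : ℝ) else 0) ≤ C₂ := by
        rw [Finset.sum_ite_eq, if_pos hx, mul_one]
      linarith
    have h8 := mul_le_mul_of_nonneg_left h7 hwI
    linarith
  refine (Finset.sum_le_sum h2).trans (le_of_eq ?_)
  rw [← Finset.mul_sum, Finset.sum_add_distrib, ← Finset.sum_mul, ← Finset.sum_mul]
  ring

end Pool.Agent.H3.MLP
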