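import Pool.Agent.H3.MLP.Primes
import Pool.Agent.H3.MLP.Moment

set_option autoImplicit false

namespace Pool.Agent.H3.MLP

open Finset

lemma log_of_mem_Pb {j p : ℕ} (h : p ∈ Pb j) : Nat.log 4 p = j := by
  rw [mem_Pb] at h
  exact Nat.log_eq_of_pow_le_of_lt_pow h.1.1 h.1.2

lemma inv_sum_le (j : ℕ) (hj : 1 ≤ j) : ∑ p ∈ Pb j, (1 / (p : ℝ)) ≤ 4 / j := by
  have h1 : ∑ p ∈ Pb j, (1 / (p : ℝ)) ≤ ∑ p ∈ Pb j, (1 / (4 : ℝ) ^ j) := by
    refine Finset.sum_le_sum fun p hp => ?_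
    rw [mem_Pb] at hp
    apply one_div_le_one_div_of_le (by positivity)
    exact_mod_cast hp.1.1
  refine h1.trans ?_
  rw [Finset.sum_const, nsmul_eq_mul]
  have h2 := Pb_upper j hj
  have hj0 : (0 : ℝ) < j := by exact_mod_cast hj
  rw [le_div_iff₀ hj0, mul_one_div, div_mul_eq_mul_div, div_le_iff₀ (by positivity)]
  rw [pow_succ] at h2
  linarith

section
variable (nul : ℕ → Prop)

open Classical in
noncomputable def Sb (j : ℕ) : Finset ℕ := (Pb j).filter (fun p => ¬ nul p)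
open Classical in
noncomputable def Qb (j : ℕ) : Finset ℕ := (Pb j).filter (fun p => nul p)
noncomputable def sj (j : ℕ) : ℝ := ∑ p ∈ Sb nul j, (1 / (p : ℝ))
def R (j : ℕ) : Finset ℕ := (range j).filter (fun a => a < j - 1 - a ∧ j - 1 - a < 3 * a)
noncomputable def Kp (j : ℕ) : Finset (ℕ × ℕ) := (R j).biUnion (fun a => Qb nul a ×ˢ Qb nul (j - 1 - a))

lemma mem_Sb {j p : ℕ} : p ∈ Sb nul j ↔ p ∈ Pb j ∧ ¬ nul p := by simp [Sb]
lemma mem_Qb {j p : ℕ} : p ∈ Qb nul j ↔ p ∈ Pb j ∧ nul p := by simp [Qb]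

lemma mem_Kp {j : ℕ} {x : ℕ × ℕ} : x ∈ Kp nul j ↔ 
    ∃ a b, a + b + 1 = j ∧ a < b ∧ b < 3 * a ∧ x.1 ∈ Qb nul a ∧ x.2 ∈ Qb nul b := by
  simp only [Kp, R, Finset.mem_biUnion, Finset.mem_filter, Finset.mem_range, Finset.mem_product]
  constructor
  · rintro ⟨a, ⟨h1, h2, h3⟩, h4, h5⟩
    exact ⟨a, j - 1 - a, by omega, h2, h3, h4, h5⟩
  · rintro ⟨a, b, h1, h2, h3, h4, h5⟩
    have hb : j - 1 - a = b := by omega
    exact ⟨a, ⟨by omega, by omega, by omega⟩, h4, by rw [hb]; exact h5⟩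

lemma sj_nonneg (j : ℕ) : 0 ≤ sj nul j := Finset.sum_nonneg fun p _ => by positivity

lemma sj_le (j : ℕ) (hj : 1 ≤ j) : sj nul j ≤ 4 / j := by
  refine le_trans ?_ (inv_sum_le j hj)
  apply Finset.sum_le_sum_of_subset_of_nonneg
  · intro p hp; exact ((mem_Sb nul).1 hp).1
  · intro p _ _; positivity

lemma card_Sb_le (j : ℕ) : ((Sb nul j).card : ℝ) ≤ 4 ^ (j + 1) * sj nul j := by
  have h1 : ∑ p ∈ Sb nul j, (1 / (4 : ℝ) ^ (j + 1)) ≤ sj nul j := by
    refine Finset.sum_le_sum fun p hp => ?_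
    have hp := ((mem_Sb nul).1 hp).1
    rw [mem_Pb] at hp
    apply one_div_le_one_div_of_le
    · exact_mod_cast hp.2.pos
    · exact_mod_cast hp.1.2.le
  rw [Finset.sum_const, nsmul_eq_mul, mul_one_div, div_le_iff₀ (by positivity)] at h1
  linarith

lemma sj_le_card (j : ℕ) : sj nul j * 4 ^ j ≤ (Sb nul j).card := by
  have h1 : sj nul j ≤ ∑ p ∈ Sb nul j, (1 / (4 : ℝ) ^ j) := by
    refine Finset.sum_le_sum fun p hp => ?_
    have hp := ((mem_Sb nul).1 hp).1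
    rw [mem_Pb] at hp
    apply one_div_le_one_div_of_le (by positivity)
    exact_mod_cast hp.1.1
  rw [Finset.sum_const, nsmul_eq_mul, mul_one_div, le_div_iff₀ (by positivity)] at h1
  exact h1

lemma card_Sb_le_Pb (j : ℕ) : (Sb nul j).card ≤ (Pb j).card :=
  Finset.card_le_card fun _ hp => ((mem_Sb nul).1 hp).1

lemma card_split (j : ℕ) : ((Qb nul j).card : ℝ) = (Pb j).card - (Sb nul j).card := by
  classical
  have := Finset.card_filter_add_card_filter_not (s := Pb j) (fun p => nul p)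
  have h2 : ((Qb nul j).card : ℝ) + (Sb nul j).card = (Pb j).card := by
    unfold Qb Sb
    exact_mod_cast this
  linarith

lemma card_Kp (j : ℕ) : ((Kp nul j).card : ℝ) = ∑ a ∈ R j, ((Qb nul a).card : ℝ) * (Qb nul (j - 1 - a)).card := by
  unfold Kp
  rw [Finset.card_biUnion]
  · push_cast
    refine Finset.sum_congr rfl fun a _ => ?_
    rw [Finset.card_product]; push_cast; rfl
  · intro a _ b _ hab
    show Disjoint (Qb nul a ×ˢ Qb nul (j - 1 - a)) (Qb nul b ×ˢ Qb nul (j - 1 - b))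
    rw [Finset.disjoint_left]
    rintro ⟨u, v⟩ h1 h2
    rw [Finset.mem_product] at h1 h2
    have e1 := log_of_mem_Pb ((mem_Qb nul).1 h1.1).1
    have e2 := log_of_mem_Pb ((mem_Qb nul).1 h2.1).1
    simp only at e1 e2
    exact hab (e1.symm.trans e2)

lemma card_R (j : ℕ) (hj : 45 ≤ j) : (j : ℝ) / 5 ≤ (R j).card := by
  have h1 : (Finset.Ioo ((j - 1) / 4) ((j - 1) / 2)) ⊆ R j := by
    intro a ha
    rw [Finset.mem_Ioo] at ha
    simp only [R, Finset.mem_filter, Finset.mem_range]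
    omega
  have h2 := Finset.card_le_card h1
  rw [Nat.card_Ioo] at h2
  have h3 : j ≤ 5 * (R j).card := by omega
  have h4 : (j : ℝ) ≤ 5 * (R j).card := by exact_mod_cast h3
  linarith

lemma term_lower (j a : ℕ) (hj : 45 ≤ j) (ha : a ∈ R j) : 
    (4 : ℝ) ^ j / (4 * (j + 1) ^ 2) - 4 ^ j * 4 / (j - 1) * (2 * sj nul a + 4 * sj nul (j - 1 - a)) ≤ 
      ((Qb nul a).card : ℝ) * (Qb nul (j - 1 - a)).card := by
  simp only [R, Finset.mem_filter, Finset.mem_range] at ha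
  obtain ⟨h1, h2, h3⟩ := ha
  obtain ⟨b, hb⟩ : ∃ b, b = j - 1 - a := ⟨_, rfl⟩
  rw [← hb] at h2 h3 ⊢
  have hab : a + b + 1 = j := by omega
  have ha7 : 7 ≤ a := by omega
  have hb7 : 7 ≤ b := by omega
  rw [card_split, card_split]
  have hPa := Pb_lower a ha7
  have hPb := Pb_lower b hb7
  have hUa := Pb_upper a (by omega)
  have hUb := Pb_upper b (by omega)
  have hSa := card_Sb_le nul a
  have hSb := card_Sb_le nul b
  have hsa := sj_nonneg nul a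
  have hsb := sj_nonneg nul b
  set Pa : ℝ := ((Pb a).card : ℝ)
  set Qb' : ℝ := ((Pb b).card : ℝ)
  set Sa : ℝ := ((Sb nul a).card : ℝ)
  set Sb' : ℝ := ((Sb nul b).card : ℝ)
  have hPa0 : 0 ≤ Pa := Nat.cast_nonneg _
  have hPb0 : 0 ≤ Qb' := Nat.cast_nonneg _
  have hSa0 : 0 ≤ Sa := Nat.cast_nonneg _
  have hSb0 : 0 ≤ Sb' := Nat.cast_nonneg _
  have haR : (7 : ℝ) ≤ a := by exact_mod_cast ha7
  have hbR : (7 : ℝ) ≤ b := by exact_mod_cast hb7
  have hjR : (a : ℝ) + b + 1 = j := by exact_mod_cast hab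
  have h3R : (b : ℝ) ≤ 3 * a := by exact_mod_cast h3.le
  have h2R : (a : ℝ) ≤ b := by exact_mod_cast h2.le
  have hj45 : (45 : ℝ) ≤ j := by exact_mod_cast hj
  have hpow : (4 : ℝ) ^ j = 4 * (4 ^ a * 4 ^ b) := by
    rw [← hab, pow_succ, pow_add]; ring
  have hpow2 : (4 : ℝ) ^ (a + 1) = 4 * 4 ^ a := by rw [pow_succ]; ring
  have hpow3 : (4 : ℝ) ^ (b + 1) = 4 * 4 ^ b := by rw [pow_succ]; ring
  rw [hpow2] at hUa hSa
  rw [hpow3] at hUb hSb
  set u : ℝ := 4 ^ a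
  set v : ℝ := 4 ^ b
  have hu0 : 0 < u := by positivity
  have hv0 : 0 < v := by positivity
  -- main term
  have m1 : (4 : ℝ) ^ j / (4 * (j + 1) ^ 2) ≤ Pa * Qb' := by
    rw [hpow, div_le_iff₀ (by positivity)]
    have e1 : u * v ≤ (2 * (a + 1) * Pa) * (2 * (b + 1) * Qb') := mul_le_mul hPa hPb hv0.le (by positivity)
    have e2 : (2 * (a + 1) * Pa) * (2 * (b + 1) * Qb') ≤ ((j : ℝ) + 1) ^ 2 * (Pa * Qb') := by
      have e3 : 4 * ((a : ℝ) + 1) * (b + 1) ≤ ((j : ℝ) + 1) ^ 2 := by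
        rw [← hjR]; nlinarith [sq_nonneg ((a : ℝ) - b)]
      have e4 := mul_le_mul_of_nonneg_right e3 (mul_nonneg hPa0 hPb0)
      nlinarith
    linarith
  have hj1 : (0 : ℝ) < j - 1 := by linarith
  have hjm : ((j : ℝ) - 1) = a + b := by linarith
  have m2 : Sa * Qb' ≤ 4 ^ j * 4 / (j - 1) * (2 * sj nul a) := by
    have e1 : Sa * (Qb' * b) ≤ (4 * u * sj nul a) * (4 * v) := mul_le_mul hSa hUb (by positivity) (by positivity)
    rw [hpow, div_mul_eq_mul_div, le_div_iff₀ hj1, hjm]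
    have e2 : Sa * Qb' * (a + b) ≤ 2 * (Sa * (Qb' * b)) := by
      have h0 := mul_nonneg hSa0 hPb0
      have h1 : Sa * Qb' * (a + b) ≤ Sa * Qb' * (2 * b) := mul_le_mul_of_nonneg_left (by linarith) h0
      linarith
    calc Sa * Qb' * (a + b) ≤ 2 * (Sa * (Qb' * b)) := e2
      _ ≤ 2 * ((4 * u * sj nul a) * (4 * v)) := mul_le_mul_of_nonneg_left e1 (by norm_num)
      _ = _ := by ring
  have m3 : Pa * Sb' ≤ 4 ^ j * 4 / (j - 1) * (4 * sj nul b) := by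
    have e1 : (Pa * a) * Sb' ≤ (4 * u) * (4 * v * sj nul b) := mul_le_mul hUa hSb hSb0 (by positivity)
    rw [hpow, div_mul_eq_mul_div, le_div_iff₀ hj1, hjm]
    have e2 : Pa * Sb' * (a + b) ≤ 4 * ((Pa * a) * Sb') := by
      have h0 := mul_nonneg hPa0 hSb0
      have h1 : Pa * Sb' * (a + b) ≤ Pa * Sb' * (4 * a) := mul_le_mul_of_nonneg_left (by linarith) h0
      linarith
    calc Pa * Sb' * (a + b) ≤ 4 * ((Pa * a) * Sb') := e2
      _ ≤ 4 * ((4 * u) * (4 * v * sj nul b)) := mul_le_mul_of_nonneg_left e1 (by norm_num)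
      _ = _ := by ring
  have m4 : 0 ≤ Sa * Sb' := mul_nonneg hSa0 hSb0
  have m5 : (Pa - Sa) * (Qb' - Sb') = Pa * Qb' - Sa * Qb' - Pa * Sb' + Sa * Sb' := by ring
  rw [m5, mul_add ((4 : ℝ) ^ j * 4 / (j - 1))]
  generalize (4 : ℝ) ^ j * 4 / (j - 1) * (2 * sj nul a) = X1 at m2 ⊢
  generalize (4 : ℝ) ^ j * 4 / (j - 1) * (4 * sj nul b) = X2 at m3 ⊢
  generalize (4 : ℝ) ^ j / (4 * (j + 1) ^ 2) = X3 at m1 ⊢
  generalize Pa * Qb' = X4 at *
  generalize Sa * Qb' = X5 at *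
  generalize Pa * Sb' = X6 at *
  generalize Sa * Sb' = X7 at *
  clear_value u v
  clear hPa hPb hUa hUb hSa hSb
  linarith

lemma Kp_lower (j : ℕ) (hj : 45 ≤ j) (hκ : ∑ i ∈ range j, sj nul i ≤ 1 / 5000) :
    (4 : ℝ) ^ j ≤ 25 * j * (Kp nul j).card := by
  have hj45 : (45 : ℝ) ≤ j := by exact_mod_cast hj
  have h1 : ∑ a ∈ R j, ((4 : ℝ) ^ j / (4 * (j + 1) ^ 2) - 4 ^ j * 4 / (j - 1) * (2 * sj nul a + 4 * sj nul (j - 1 - a))) ≤ ((Kp nul j).card : ℝ) := by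
    rw [card_Kp]
    exact Finset.sum_le_sum fun a ha => term_lower nul j a hj ha
  rw [Finset.sum_sub_distrib, Finset.sum_const, nsmul_eq_mul, ← Finset.mul_sum, Finset.sum_add_distrib, ← Finset.mul_sum, ← Finset.mul_sum] at h1
  have h2 : ∑ a ∈ R j, sj nul a ≤ 1 / 5000 := by
    refine le_trans (Finset.sum_le_sum_of_subset_of_nonneg (Finset.filter_subset _ _) fun i _ _ => sj_nonneg nul i) hκ
  have h3 : ∑ a ∈ R j, sj nul (j - 1 - a) ≤ 1 / 5000 := by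
    have e1 : ∑ a ∈ R j, sj nul (j - 1 - a) = ∑ b ∈ (R j).image (fun a => j - 1 - a), sj nul b := by
      rw [Finset.sum_image]
      intro a ha b hb hab
      simp only [R, Finset.coe_filter, Finset.mem_range, Set.mem_ofPred_eq] at ha hb hab
      omega
    rw [e1]
    refine le_trans (Finset.sum_le_sum_of_subset_of_nonneg ?_ fun i _ _ => sj_nonneg nul i) hκ
    intro b hb
    simp only [R, Finset.mem_image, Finset.mem_filter, Finset.mem_range] at hb ⊢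
    omega
  have h4 := card_R j hj
  have hp : (0 : ℝ) < 4 ^ j := by positivity
  have hj1 : (0 : ℝ) < j - 1 := by linarith
  have h5 : (j : ℝ) / 5 * (4 ^ j / (4 * (j + 1) ^ 2)) ≤ ((R j).card : ℝ) * (4 ^ j / (4 * (j + 1) ^ 2)) :=
    mul_le_mul_of_nonneg_right h4 (by positivity)
  have h6 : (4 : ℝ) ^ j * 4 / (j - 1) * (2 * ∑ a ∈ R j, sj nul a + 4 * ∑ a ∈ R j, sj nul (j - 1 - a)) ≤ 4 ^ j * 4 / (j - 1) * (6 / 5000) :=
    mul_le_mul_of_nonneg_left (by linarith) (by positivity)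
  have h7 : (j : ℝ) / 5 * (4 ^ j / (4 * (j + 1) ^ 2)) - 4 ^ j * 4 / (j - 1) * (6 / 5000) ≤ ((Kp nul j).card : ℝ) := by linarith
  have h8 : (4 : ℝ) ^ j / (25 * j) ≤ (j : ℝ) / 5 * (4 ^ j / (4 * (j + 1) ^ 2)) - 4 ^ j * 4 / (j - 1) * (6 / 5000) := by
    have e1 : (1 : ℝ) / (25 * j) ≤ (j : ℝ) / (20 * (j + 1) ^ 2) - 24 / (5000 * (j - 1)) := by
      rw [div_sub_div _ _ (by positivity) (by positivity), div_le_div_iff₀ (by positivity) (by positivity)]
      obtain ⟨t, ht⟩ : ∃ t : ℝ, (j : ℝ) = t + 45 := ⟨j - 45, by ring⟩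
      have ht0 : 0 ≤ t := by linarith
      rw [ht]
      ring_nf
      nlinarith [pow_nonneg ht0 2, pow_nonneg ht0 3, pow_nonneg ht0 4]
    have e2 := mul_le_mul_of_nonneg_left e1 hp.le
    calc (4 : ℝ) ^ j / (25 * j) = 4 ^ j * (1 / (25 * j)) := by ring
      _ ≤ _ := e2
      _ = _ := by
        field_simp
        ring
  have h9 := h8.trans h7
  rw [div_le_iff₀ (by positivity)] at h9
  linarith

end

end Pool.Agent.H3.MLP
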