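import Mathlib

set_option autoImplicit false

namespace Pool.Agent.H3.MLP

open Finset Real

/-- primes in `[4^j, 4^(j+1))` -/
def Pb (j : ℕ) : Finset ℕ := (Finset.Ico (4 ^ j) (4 ^ (j + 1))).filter Nat.Prime

lemma mem_Pb {j p : ℕ} : p ∈ Pb j ↔ (4 ^ j ≤ p ∧ p < 4 ^ (j + 1)) ∧ p.Prime := by
  simp [Pb]

lemma log4 : Real.log 4 = 2 * Real.log 2 := by
  rw [show (4 : ℝ) = 2 ^ 2 by norm_num, Real.log_pow]; norm_num

lemma Pb_upper (j : ℕ) (hj : 1 ≤ j) : ((Pb j).card : ℝ) * j ≤ 4 ^ (j + 1) := by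
  have h1 : Chebyshev.theta (4 ^ (j + 1) : ℕ) ≤ Real.log 4 * (4 ^ (j + 1) : ℕ) :=
    Chebyshev.theta_le_log4_mul_x (by positivity)
  rw [Chebyshev.theta_eq_sum_Icc, Nat.floor_natCast] at h1
  have h2 : ∑ p ∈ Pb j, Real.log p ≤ ∑ p ∈ (Icc 0 (4 ^ (j + 1)) : Finset ℕ).filter Nat.Prime, Real.log (p : ℝ) := by
    apply Finset.sum_le_sum_of_subset_of_nonneg
    · intro p hp
      rw [mem_Pb] at hp
      simp only [Finset.mem_filter, Finset.mem_Icc]
      exact ⟨⟨Nat.zero_le _, hp.1.2.le⟩, hp.2⟩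
    · intro p _ _
      exact Real.log_natCast_nonneg p
  have h3 : ((Pb j).card : ℝ) * (j * Real.log 4) ≤ ∑ p ∈ Pb j, Real.log p := by
    rw [← nsmul_eq_mul]
    apply Finset.card_nsmul_le_sum
    intro p hp
    rw [mem_Pb] at hp
    rw [← Real.log_pow]
    apply Real.log_le_log (by positivity)
    exact_mod_cast hp.1.1
  have h4 : (0 : ℝ) < Real.log 4 := Real.log_pos (by norm_num)
  push_cast at h1
  have h5 : ((Pb j).card : ℝ) * j * Real.log 4 ≤ 4 ^ (j + 1) * Real.log 4 := by linarith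
  exact le_of_mul_le_mul_right h5 h4

lemma aux_pow (j : ℕ) (hj : 7 ≤ j) : 8 * (j + 1) + 1 ≤ 2 ^ j := by
  induction j, hj using Nat.le_induction with
  | base => norm_num
  | succ n hn ih => rw [pow_succ]; omega

lemma Pb_lower (j : ℕ) (hj : 7 ≤ j) : (4 : ℝ) ^ j ≤ 2 * (j + 1) * (Pb j).card := by
  have h1 := Chebyshev.theta_ge (4 ^ (j + 1))
  have h0 : Chebyshev.theta (4 ^ j : ℕ) ≤ Real.log 4 * (4 ^ j : ℕ) :=
    Chebyshev.theta_le_log4_mul_x (by positivity)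
  rw [Chebyshev.theta_eq_sum_Icc, Nat.floor_natCast] at h0 h1
  have h2 : ∑ p ∈ (Icc 0 (4 ^ (j + 1)) : Finset ℕ).filter Nat.Prime, Real.log (p : ℝ) ≤ 
      ∑ p ∈ (Icc 0 (4 ^ j) : Finset ℕ).filter Nat.Prime, Real.log (p : ℝ) + ∑ p ∈ Pb j, Real.log p := by
    have hsub : (Icc 0 (4 ^ (j + 1))).filter Nat.Prime ⊆ (Icc 0 (4 ^ j)).filter Nat.Prime ∪ Pb j := by
      intro p hp
      simp only [Finset.mem_filter, Finset.mem_Icc, Finset.mem_union, mem_Pb] at hp ⊢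
      rcases le_or_gt p (4 ^ j) with h | h
      · left; exact ⟨⟨Nat.zero_le _, h⟩, hp.2⟩
      · right
        refine ⟨⟨h.le, lt_of_le_of_ne hp.1.2 ?_⟩, hp.2⟩
        rintro rfl
        exact Nat.Prime.not_prime_pow (show 2 ≤ j + 1 by omega) hp.2
    refine (Finset.sum_le_sum_of_subset_of_nonneg hsub fun p _ _ => Real.log_natCast_nonneg p).trans ?_
    rw [← Finset.sum_union_inter]
    have : 0 ≤ ∑ p ∈ (Icc 0 (4 ^ j)).filter Nat.Prime ∩ Pb j, Real.log p :=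
      Finset.sum_nonneg fun p _ => Real.log_natCast_nonneg p
    linarith
  have h3 : ∑ p ∈ Pb j, Real.log p ≤ ((Pb j).card : ℝ) * ((j + 1 : ℕ) * Real.log 4) := by
    rw [← nsmul_eq_mul]
    apply Finset.sum_le_card_nsmul
    intro p hp
    rw [mem_Pb] at hp
    rw [← Real.log_pow]
    apply Real.log_le_log
    · exact_mod_cast hp.2.pos
    · exact_mod_cast hp.1.2.le
  have hl2 : (0 : ℝ) < Real.log 2 := Real.log_pos (by norm_num)
  have hl2' : (1 / 2 : ℝ) < Real.log 2 := by have := Real.log_two_gt_d9; linarith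
  have hs : √((4 ^ (j + 1) : ℕ) : ℝ) = 2 ^ (j + 1) := by
    rw [Real.sqrt_eq_iff_mul_self_eq (by positivity) (by positivity)]
    push_cast
    rw [← mul_pow]; norm_num
  have hlog : Real.log ((4 ^ (j + 1) : ℕ) : ℝ) = (j + 1) * (2 * Real.log 2) := by
    push_cast
    rw [Real.log_pow, log4]; push_cast; ring
  have hlog1 : Real.log (((4 ^ (j + 1) : ℕ) : ℝ) + 1) ≤ (j + 2) * (2 * Real.log 2) := by
    have h5 : (((4 ^ (j + 1) : ℕ) : ℝ) + 1) ≤ (4 : ℝ) ^ (j + 2) := by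
      push_cast
      have : (1 : ℝ) ≤ 4 ^ (j + 1) := one_le_pow₀ (by norm_num)
      rw [pow_succ (4 : ℝ) (j + 1)]; linarith
    refine (Real.log_le_log (by positivity) h5).trans ?_
    rw [Real.log_pow, log4]; push_cast; linarith
  rw [hs, hlog] at h1
  have haux : (8 * ((j : ℝ) + 1) + 1) ≤ 2 ^ j := by exact_mod_cast aux_pow j hj
  have h4 : (4 : ℝ) ^ j = 2 ^ j * 2 ^ j := by rw [← mul_pow]; norm_num
  have h6 : (2 : ℝ) ^ (j + 1) = 2 * 2 ^ j := by rw [pow_succ]; ring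
  have h7 : (((4 ^ (j + 1) : ℕ) : ℝ)) = 4 * 4 ^ j := by push_cast; rw [pow_succ]; ring
  have h8 : (((4 ^ j : ℕ) : ℝ)) = 4 ^ j := by push_cast; rfl
  rw [h7] at h1
  rw [h8, log4] at h0
  rw [log4] at h3
  rw [h7] at hlog1
  rw [h6] at h1
  push_cast at h3
  set u : ℝ := 2 ^ j with hu
  set v : ℝ := 4 ^ j with hv
  set l := Real.log 2 with hl
  have hu1 : (0 : ℝ) ≤ u := by positivity
  have hj0 : (0 : ℝ) ≤ j := Nat.cast_nonneg j
  -- 4 v l - 2 (j+2) l - 4 u * ((j+1) * 2 l) <= 2 l v + card * (j+1) * 2 l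
  have h9 : 4 * v * l - (j + 2) * (2 * l) - 2 * (2 * u) * ((j + 1) * (2 * l)) ≤ 2 * l * v + (Pb j).card * ((j + 1) * (2 * l)) := by
    linarith
  have h10 : l * (2 * v - 2 * (j + 2) - 8 * u * (j + 1)) ≤ l * (2 * (j + 1) * (Pb j).card) := by
    nlinarith
  have h11 := le_of_mul_le_mul_left h10 hl2
  have h12 : 8 * u * (j + 1) + 2 * (j + 2) ≤ v := by
    rw [h4]
    nlinarith
  linarith

end Pool.Agent.H3.MLP
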